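import Mathlib

/-!
# MP_be1941_al : definitions (interfaces between the blocks RED, REP and CORE)

Paper: /team-store/MP_be1941_al_RHO2.md.
-/

set_option autoImplicit false

namespace Pool.Agent.Lib.MPbe1941

/-- Large primes. -/
def Large (r : ℕ) : Prop := r.Prime ∧ 31 < r

/-- `d` is the degree of an irreducible complex representation of `G`. -/
def IsDeg (G : Type) [Group G] (d : ℕ) : Prop :=
  ∃ ρ : Representation ℂ G (Fin d → ℂ), ρ.IsIrreducible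

/-- `G` has a normal abelian Sylow `r`-subgroup. -/
def NAS (G : Type) [Group G] (r : ℕ) : Prop :=
  ∃ P : Subgroup G, P.Normal ∧ (∀ x ∈ P, ∀ y ∈ P, x * y = y * x) ∧ IsPGroup r P ∧ ¬ r ∣ P.index

/-- The large primes without a normal abelian Sylow subgroup. -/
def RS (G : Type) [Group G] : Set ℕ := {r | Large r ∧ ¬ NAS G r}

/-- A finite family of irreducible degrees such that every prime in `RS G` divides at least half
of them. -/
def Good (G : Type) [Group G] : Prop :=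
  ∃ (S : Type) (_ : Finite S) (_ : Nonempty S) (d : S → ℕ), (∀ s, IsDeg G (d s)) ∧
    ∀ r ∈ RS G, Nat.card S ≤ 2 * Nat.card {s : S // r ∣ d s}

/-- `R` is a Sylow `r`-subgroup of the subgroup `S` (both are subgroups of `H`). -/
def SylIn {H : Type} [Group H] (r : ℕ) (S R : Subgroup H) : Prop :=
  R ≤ S ∧ IsPGroup r R ∧ ¬ r ∣ R.relIndex S

/-- Output of the reduction (section 1 of the paper): `G = (U × ∏ P i) ⋊ H`. -/
structure IsSplit {G : Type} [Group G] {ι : Type} (pr : ι → ℕ) (P : ι → Subgroup G)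
    (U H : Subgroup G) : Prop where
  large : ∀ i, Large (pr i)
  inj : Function.Injective pr
  Pn : ∀ i, (P i).Normal
  Pp : ∀ i, IsPGroup (pr i) (P i)
  Pi : ∀ i, ¬ pr i ∣ (P i).index
  Un : U.Normal
  Uc : ∀ x ∈ U, ∀ y ∈ U, x * y = y * x
  Usf : ∃ N : ℕ, Squarefree N ∧ ∀ x ∈ U, x ^ N = 1
  Ucop : ∀ i, ¬ pr i ∣ Nat.card U
  Ucr : ∀ N : Subgroup G, N.Normal → N ≤ U →
    ∃ N' : Subgroup G, N'.Normal ∧ N' ≤ U ∧ N ⊓ N' = ⊥ ∧ N ⊔ N' = U
  cen : ∀ i, ∀ x ∈ ⁅P i, P i⁆, ∀ y ∈ P i, x * y = y * x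
  nab : ∀ i, ⁅P i, P i⁆ ≠ ⊥
  mn : ∀ i, ∀ N : Subgroup G, N.Normal → N ≤ ⁅P i, P i⁆ → N = ⊥ ∨ N = ⁅P i, P i⁆
  sol : Group.IsSolvable G
  cop : ∀ i, ¬ pr i ∣ Nat.card H
  sup : (⨆ i, P i) ⊔ U ⊔ H = ⊤
  inf : ((⨆ i, P i) ⊔ U) ⊓ H = ⊥
  faith : ∀ h ∈ H, (∀ i, ∀ x ∈ P i, h * x = x * h) → (∀ x ∈ U, h * x = x * h) → h = 1

/-- The abstract data (section 2d): `H` acts on the finite abelian group `W`, the internal direct
sum of the components `cmp (inl i) = M_i` and the free components `cmp (inr c)`; `Z i` is the dual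
of the commutator subgroup of `P i`, `B i μ x y = μ [x, y]`. -/
structure IsCore (H W : Type) {ι κ : Type} (Z : ι → Type) [Group H] [AddCommGroup W]
    [DistribMulAction H W] [∀ i, AddCommGroup (Z i)] [∀ i, DistribMulAction H (Z i)]
    (pr : ι → ℕ) (cmp : ι ⊕ κ → AddSubgroup W) (B : ∀ i, Z i → W → W → ℂ) : Prop where
  finH : Finite H
  finW : Finite W
  finZ : ∀ i, Finite (Z i)
  finι : Finite ι
  finκ : Finite κ
  sol : Group.IsSolvable H
  large : ∀ i, Large (pr i)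
  cop : ∀ i, ¬ pr i ∣ Nat.card H
  inv : ∀ c, ∀ h : H, ∀ x ∈ cmp c, h • x ∈ cmp c
  ind : iSupIndep cmp
  top : iSup cmp = ⊤
  cr : ∀ c, ∀ A : AddSubgroup W, A ≤ cmp c → (∀ h : H, ∀ x ∈ A, h • x ∈ A) →
    ∃ A' : AddSubgroup W, A' ≤ cmp c ∧ (∀ h : H, ∀ x ∈ A', h • x ∈ A') ∧ A ⊓ A' = ⊥ ∧
      A ⊔ A' = cmp c
  exp : ∀ i, ∀ x ∈ cmp (Sum.inl i), pr i • x = 0
  ne : ∀ i, cmp (Sum.inl i) ≠ ⊥
  faith : ∀ h : H, (∀ x : W, h • x = x) → h = 1
  Znt : ∀ i, Nontrivial (Z i)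
  Zirr : ∀ i, ∀ A : AddSubgroup (Z i), (∀ h : H, ∀ μ ∈ A, h • μ ∈ A) → A = ⊥ ∨ A = ⊤
  Zexp : ∀ i, ∀ μ : Z i, pr i • μ = 0
  Bne : ∀ i μ x y, B i μ x y ≠ 0
  Bz : ∀ i μ ν x y, B i (μ + ν) x y = B i μ x y * B i ν x y
  Bl : ∀ i μ x x' y, B i μ (x + x') y = B i μ x y * B i μ x' y
  Br : ∀ i μ x y y', B i μ x (y + y') = B i μ x y * B i μ x y'
  Balt : ∀ i μ x, B i μ x x = 1
  Bh : ∀ i (h : H) μ x y, B i (h • μ) (h • x) (h • y) = B i μ x y
  Boff : ∀ i c, c ≠ Sum.inl i → ∀ μ, ∀ x ∈ cmp c, ∀ y, B i μ x y = 1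
  Bnd : ∀ i, ∀ x ∈ cmp (Sum.inl i), (∀ μ y, B i μ x y = 1) → x = 0

/-- A configuration `(λ, μ)` with an abelian subgroup `E` and a character `β` of `E`. -/
structure Cfg (H W : Type) {ι : Type} (Z : ι → Type) [Group H] [AddCommGroup W] where
  lam : AddChar W ℂ
  mu : ∀ i, Z i
  E : Subgroup H
  bet : H → ℂ

section

variable {H W : Type} {ι κ : Type} {Z : ι → Type} [Group H] [AddCommGroup W]
    [DistribMulAction H W] [∀ i, AddCommGroup (Z i)] [∀ i, DistribMulAction H (Z i)]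
    (cmp : ι ⊕ κ → AddSubgroup W) (B : ∀ i, Z i → W → W → ℂ)

/-- `h` fixes the configuration `(λ, μ)`. -/
def Fixes (lam : AddChar W ℂ) (mu : ∀ i, Z i) (h : H) : Prop :=
  (∀ i, h • mu i = mu i) ∧ (∀ c, ∀ x ∈ cmp (Sum.inr c), lam (h • x) = lam x) ∧
    ∀ i, ∀ x ∈ cmp (Sum.inl i), (∀ y, B i (mu i) x y = 1) → lam (h • x) = lam x

/-- `E` is an abelian subgroup of the stabiliser of `(λ, μ)`, normalised by this stabiliser, and
`β` is a linear character of `E`. -/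
def Cfg.Valid (c : Cfg H W Z) : Prop :=
  (∀ x ∈ c.E, ∀ y ∈ c.E, x * y = y * x) ∧ (∀ x ∈ c.E, Fixes cmp B c.lam c.mu x) ∧
    (∀ h, Fixes cmp B c.lam c.mu h → ∀ x ∈ c.E, h * x * h⁻¹ ∈ c.E) ∧
    c.bet 1 = 1 ∧ ∀ x ∈ c.E, ∀ y ∈ c.E, c.bet (x * y) = c.bet x * c.bet y

/-- `h` fixes the configuration and `β`. -/
def Cfg.FixAll (c : Cfg H W Z) (h : H) : Prop :=
  Fixes cmp B c.lam c.mu h ∧ ∀ x ∈ c.E, c.bet (h * x * h⁻¹) = c.bet x

/-- `r` is covered: no Sylow `r`-subgroup of `H` fixes the configuration and `β`. -/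
def Cfg.Cov (c : Cfg H W Z) (r : ℕ) : Prop :=
  ∀ R : Subgroup H, SylIn r ⊤ R → ∃ h ∈ R, ¬ c.FixAll cmp B h

end

/-- Flip one coordinate of a state. -/
noncomputable def flip {K : Type} (s : K → Bool) (k : K) : K → Bool :=
  fun j => open Classical in if j = k then !s j else s j

/-- **REDUCTION** (section 1 of the paper; final Spec of block RED). -/
def SpecRED : Prop :=
  ∀ (G : Type) [Group G] [Finite G], Group.IsSolvable G →
    (∀ N : Subgroup G, ∀ _ : N.Normal, N ≠ ⊥ → RS (G ⧸ N) ≠ RS G) →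
    ∃ (ι : Type) (_ : Finite ι) (pr : ι → ℕ) (P : ι → Subgroup G) (U H : Subgroup G),
      IsSplit pr P U H ∧ ∀ r ∈ RS G, (∃ i, r = pr i) ∨ r ∣ Nat.card H

/-- **CHARACTERS** (section 2 of the paper; final Spec of block REP). -/
def SpecREP : Prop :=
  ∀ (G : Type) [Group G] [Finite G] (ι : Type) [Finite ι] (pr : ι → ℕ) (P : ι → Subgroup G)
    (U H : Subgroup G), IsSplit pr P U H →
    ∃ (W : Type) (_ : AddCommGroup W) (_ : DistribMulAction H W) (Z : ι → Type)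
      (_ : ∀ i, AddCommGroup (Z i)) (_ : ∀ i, DistribMulAction H (Z i)) (κ : Type)
      (cmp : ι ⊕ κ → AddSubgroup W) (B : ∀ i, Z i → W → W → ℂ),
      IsCore H W Z pr cmp B ∧
      ∀ c : Cfg H W Z, c.Valid cmp B → ∃ d, IsDeg G d ∧ (∀ i, c.mu i ≠ 0 → pr i ∣ d) ∧
        ∀ r, r.Prime → c.Cov cmp B r → r ∣ d

/-- **THE CORE** (sections 3 - 10 of the paper). -/
def SpecCORE : Prop :=
  ∀ (H W ι κ : Type) (Z : ι → Type) [Group H] [AddCommGroup W]
    [DistribMulAction H W] [∀ i, AddCommGroup (Z i)] [∀ i, DistribMulAction H (Z i)]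
    (pr : ι → ℕ) (cmp : ι ⊕ κ → AddSubgroup W) (B : ∀ i, Z i → W → W → ℂ),
    IsCore H W Z pr cmp B →
    ∃ c : (Option ι → Bool) → Cfg H W Z, (∀ s, (c s).Valid cmp B) ∧
      (∀ s i, (c s).mu i ≠ 0 ↔ s (some i) = true) ∧
      ∀ r, Large r → r ∣ Nat.card H → ∃ k : Option ι, ∀ s,
        (c s).Cov cmp B r ∨ (c (flip s k)).Cov cmp B r

/-- Ito's theorem, easy direction: a prime with a normal abelian Sylow subgroup divides no degree. -/
def SpecITO : Prop :=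
  ∀ (G : Type) [Group G] [Finite G] (r : ℕ), r.Prime → NAS G r → ∀ d, IsDeg G d → ¬ r ∣ d

/-- **FINAL**: the family of degrees (from RED, REP, CORE by induction on the order of `G`). -/
def SpecGOOD : Prop := ∀ (G : Type) [Group G] [Finite G], Group.IsSolvable G → Good G

/-- **FINAL**: the main theorem. -/
def SpecMAIN : Prop :=
  ∃ C : ℕ, ∀ (G : Type) [Group G] [Finite G], Group.IsSolvable G →
    ∃ V : FDRep ℂ G, CategoryTheory.Simple V ∧
      {p : ℕ | p.Prime ∧ ∃ W : FDRep ℂ G, CategoryTheory.Simple W ∧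
          p ∣ Module.finrank ℂ W}.ncard
        ≤ 2 * (Module.finrank ℂ V).primeFactors.card + C

end Pool.Agent.Lib.MPbe1941
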