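import Pool.Agent.Lib.MP_be1941_al.Defs

/-!
# MP_be1941_al : atoms, coordinates, types of primes (interfaces inside the core)

Paper: /team-store/MP_be1941_al_RHO2.md, sections 3 - 5.
-/

set_option autoImplicit false

namespace Pool.Agent.Lib.MPbe1941

section

variable {H W A : Type} [Group H] [AddCommGroup W] [DistribMulAction H W] [MulAction H A]

/-- There is a character `w` of the atom `u` which is moved by every Sylow `r`-subgroup of the
stabiliser of `u`, for all large `r` acting non-trivially on the atom. -/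
def GV (H : Type) {W A : Type} [Group H] [AddCommGroup W] [DistribMulAction H W] [MulAction H A]
    (at' : A → AddSubgroup W) (u : A) : Prop :=
  ∃ w : AddChar W ℂ, (∀ v, v ≠ u → ∀ x ∈ at' v, w x = 1) ∧ (∃ x ∈ at' u, w x ≠ 1) ∧
    ∀ r, Large r → ∀ R : Subgroup H, SylIn r (MulAction.stabilizer H u) R →
      (∃ ρ ∈ R, ∃ x ∈ at' u, ρ • x ≠ x) → ∃ ρ ∈ R, ∃ x ∈ at' u, w (ρ • x) ≠ w x

/-- Semilinear coordinates of the atom `u`: it is identified with a finite field `F`, and the
stabiliser of `u` acts by `y ↦ a h * s h y`. For every large `r` either the group of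
multiplications `T` contains an element of order `r` or some Sylow `r`-subgroup of the stabiliser
acts by field automorphisms. -/
structure Coord (H : Type) {W A : Type} [Group H] [AddCommGroup W] [DistribMulAction H W]
    [MulAction H A] (at' : A → AddSubgroup W) (u : A) (F : Type) [Field F] where
  φ : W →+ F
  a : H → F
  s : H → (F ≃+* F)
  inj : ∀ x ∈ at' u, φ x = 0 → x = 0
  surj : ∀ y, ∃ x ∈ at' u, φ x = y
  off : ∀ v, v ≠ u → ∀ x ∈ at' v, φ x = 0
  ane : ∀ h : H, h • u = u → a h ≠ 0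
  act : ∀ h : H, h • u = u → ∀ x, φ (h • x) = a h * s h (φ x)
  hall : ∀ r, Large r →
    (∃ h : H, h • u = u ∧ (∀ y, s h y = y) ∧ a h ≠ 1 ∧ a h ^ r = 1) ∨
    (∃ R : Subgroup H, SylIn r (MulAction.stabilizer H u) R ∧ ∀ h ∈ R, a h = 1)

/-- The atoms: `W` is the internal direct sum of the `at' u`, permuted by `H`. -/
structure IsAtomic (H : Type) {W ι κ A : Type} [Group H] [AddCommGroup W] [DistribMulAction H W]
    [MulAction H A] (cmp : ι ⊕ κ → AddSubgroup W) (at' : A → AddSubgroup W)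
    (lab : A → Option ι) : Prop where
  finA : Finite A
  smul : ∀ (h : H) u, ∀ x ∈ at' u, h • x ∈ at' (h • u)
  ind : iSupIndep at'
  top : iSup at' = ⊤
  ne : ∀ u, at' u ≠ ⊥
  lab_smul : ∀ (h : H) u, lab (h • u) = lab u
  le_some : ∀ u i, lab u = some i → at' u ≤ cmp (Sum.inl i)
  le_none : ∀ u, lab u = none → ∃ c, at' u ≤ cmp (Sum.inr c)
  sup_some : ∀ i, cmp (Sum.inl i) ≤ ⨆ u : {u // lab u = some i}, at' u.1
  sup_none : ∀ c, cmp (Sum.inr c) ≤ ⨆ u : {u // lab u = none}, at' u.1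
  dich : ∀ u, GV H at' u ∨ ∃ (F : Type) (_ : Field F) (_ : Finite F), Nonempty (Coord H at' u F)

/-- The subgroup generated by all Sylow `r`-subgroups. -/
def Or (H : Type) [Group H] (r : ℕ) : Subgroup H := sSup {R | SylIn r ⊤ R}

/-- The group `D^{(r)}`, the derived subgroup of `Or H r`. -/
def Dr (H : Type) [Group H] (r : ℕ) : Subgroup H := ⁅Or H r, Or H r⁆

/-- `r` acts non-trivially on the atom `u` (`u ∈ I_r`). -/
def ActN (H : Type) {W A : Type} [Group H] [AddCommGroup W] [DistribMulAction H W]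
    (at' : A → AddSubgroup W) (r : ℕ) (u : A) : Prop :=
  ∃ h ∈ Or H r, ∃ x ∈ at' u, h • x ≠ x

/-- `r` is movable on the atom `u`: some character of the atom is moved by every Sylow
`r`-subgroup of the stabiliser. -/
def Mov (H : Type) {W A : Type} [Group H] [AddCommGroup W] [DistribMulAction H W]
    [MulAction H A] (at' : A → AddSubgroup W) (r : ℕ) (u : A) : Prop :=
  ∃ w : AddChar W ℂ, ∀ R : Subgroup H, SylIn r (MulAction.stabilizer H u) R →
    ∃ ρ ∈ R, ∃ x ∈ at' u, w (ρ • x) ≠ w x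

/-- Type (A): a Sylow `r`-subgroup moves an atom. -/
def TypeA (H A : Type) [Group H] [MulAction H A] (r : ℕ) : Prop :=
  ∃ R : Subgroup H, SylIn r ⊤ R ∧ ∃ ρ ∈ R, ∃ u : A, ρ • u ≠ u

/-- Type (C): `r` divides `|H|`, its Sylow subgroups fix all atoms, and it is movable nowhere. -/
def TypeC (H : Type) {W A : Type} [Group H] [AddCommGroup W] [DistribMulAction H W]
    [MulAction H A] (at' : A → AddSubgroup W) (r : ℕ) : Prop :=
  Large r ∧ r ∣ Nat.card H ∧ ¬ TypeA H A r ∧ ∀ u, ¬ Mov H at' r u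

end

/-- **ATOMS** (section 3 of the paper). -/
def SpecATM : Prop :=
  ∀ (H W ι κ : Type) (Z : ι → Type) [Group H] [AddCommGroup W]
    [DistribMulAction H W] [∀ i, AddCommGroup (Z i)] [∀ i, DistribMulAction H (Z i)]
    (pr : ι → ℕ) (cmp : ι ⊕ κ → AddSubgroup W) (B : ∀ i, Z i → W → W → ℂ),
    IsCore H W Z pr cmp B →
    ∃ (A : Type) (_ : MulAction H A) (at' : A → AddSubgroup W) (lab : A → Option ι),
      IsAtomic H cmp at' lab

/-- **PERMUTATIONS** (section 5 of the paper): one subset `Δ` of the finite `H`-set `A`. (1) `Δ`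
meets every orbit; (2) it contains every orbit on which no large prime acts non-trivially;
(3) if a Sylow `r`-subgroup `R`, `r` large, acts non-trivially on the orbit of `u` then `R` does
not preserve `Δ ∩ orbit`, and `Δ ∩ orbit` has two different points. -/
def SpecPER : Prop :=
  ∀ (H A : Type) [Group H] [Finite H] [MulAction H A] [Finite A], Group.IsSolvable H →
    ∃ Δ : Set A, (∀ u : A, ∃ h : H, h • u ∈ Δ) ∧
      (∀ u : A, (∀ r, Large r → ∀ R : Subgroup H, SylIn r ⊤ R → ∀ ρ ∈ R, ∀ h : H,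
        ρ • h • u = h • u) → u ∈ Δ) ∧
      ∀ (u : A) (r : ℕ), Large r → ∀ R : Subgroup H, SylIn r ⊤ R →
        (∃ ρ ∈ R, ∃ h : H, ρ • h • u ≠ h • u) →
        (∃ ρ ∈ R, ∃ h : H, h • u ∈ Δ ∧ ρ • h • u ∉ Δ) ∧
        ∃ h h' : H, h • u ∈ Δ ∧ h' • u ∈ Δ ∧ h • u ≠ h' • u

end Pool.Agent.Lib.MPbe1941
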