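import Pool.Agent.Lib.MP_be1941_al.Defs2

/-!
# MP_be1941_al : the bundled system and the final Specs of the blocks inside the core

Paper: /team-store/MP_be1941_al_RHO2.md, sections 4 and 6 - 10.
-/

set_option autoImplicit false

namespace Pool.Agent.Lib.MPbe1941

/-- All the data of the core together with the atoms. -/
structure Sys where
  H : Type
  W : Type
  ι : Type
  κ : Type
  A : Type
  Z : ι → Type
  [gH : Group H]
  [aW : AddCommGroup W]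
  [dW : DistribMulAction H W]
  [aZ : ∀ i, AddCommGroup (Z i)]
  [dZ : ∀ i, DistribMulAction H (Z i)]
  [mA : MulAction H A]
  pr : ι → ℕ
  cmp : ι ⊕ κ → AddSubgroup W
  B : ∀ i, Z i → W → W → ℂ
  at' : A → AddSubgroup W
  lab : A → Option ι
  core : IsCore H W Z pr cmp B
  atm : IsAtomic H cmp at' lab

attribute [instance] Sys.gH Sys.aW Sys.dW Sys.aZ Sys.dZ Sys.mA

instance (S : Sys) : Finite S.H := S.core.finH
instance (S : Sys) : Finite S.W := S.core.finW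
instance (S : Sys) : Finite S.A := S.atm.finA
instance (S : Sys) : Finite S.ι := S.core.finι
instance (S : Sys) (i : S.ι) : Finite (S.Z i) := S.core.finZ i

namespace Sys

variable (S : Sys)

/-- `r` is of type (C). -/
def TC (r : ℕ) : Prop := TypeC S.H S.at' r

/-- `u ∈ I_r`. -/
def Act (r : ℕ) (u : S.A) : Prop := ActN S.H S.at' r u

/-- `r` is movable on the atom `u`. -/
def Mv (r : ℕ) (u : S.A) : Prop := Mov S.H S.at' r u

/-- The group `D^{(r)}`. -/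
def D (r : ℕ) : Subgroup S.H := Dr S.H r

/-- `h` acts trivially on the atom `u`. -/
def Tr (h : S.H) (u : S.A) : Prop := ∀ x ∈ S.at' u, h • x = x

/-- `d` and `d'` act in the same way on the atom `u`. -/
def Same (d d' : S.H) (u : S.A) : Prop := ∀ x ∈ S.at' u, d • x = d' • x

/-- `x` is in the radical of the alternating form `B i μ`. -/
def Rad (i : S.ι) (μ : S.Z i) (x : S.W) : Prop := ∀ y, S.B i μ x y = 1

/-- `h` fixes `μ` and the restriction of the character `w` to (radical of `μ`) ∩ (atom `u`). -/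
def FixR (i : S.ι) (μ : S.Z i) (w : AddChar S.W ℂ) (u : S.A) (h : S.H) : Prop :=
  h • μ = μ ∧ ∀ x ∈ S.at' u, S.Rad i μ x → w (h • x) = w x

/-- The product `Dt_i` of the groups `D^{(r)}`, `r` of type (C) acting non-trivially on an atom
with label `i`. -/
def Dt (i : S.ι) : Subgroup S.H :=
  sSup {K | ∃ r, S.TC r ∧ (∃ u, S.lab u = some i ∧ S.Act r u) ∧ K = S.D r}

/-- The subgroup of `Z i` generated by the `Dt i`-orbit of `μ`. -/
def Xm (i : S.ι) (μ : S.Z i) : AddSubgroup (S.Z i) :=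
  AddSubgroup.closure {ν | ∃ d ∈ S.Dt i, ν = d • μ}

/-- `μ` generates a minimal `Dt i`-invariant subgroup of `Z i`. -/
def MinInv (i : S.ι) (μ : S.Z i) : Prop := μ ≠ 0 ∧ ∀ ν ∈ S.Xm i μ, ν ≠ 0 → S.Xm i ν = S.Xm i μ

/-- `r` is a witness for `k ∈ K_i` (section 8): `r` is of type (C), `k` is the only atom with
label `i` on which `r` acts non-trivially, it is not the only atom with label `i`, and some Sylow
`r`-subgroup fixes `μ`. -/
def Wit (i : S.ι) (μ : S.Z i) (k : S.A) (r : ℕ) : Prop :=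
  S.lab k = some i ∧ (∃ v, v ≠ k ∧ S.lab v = some i) ∧ S.TC r ∧ S.Act r k ∧
    (∀ u, S.lab u = some i → S.Act r u → u = k) ∧
    ∃ R : Subgroup S.H, SylIn r ⊤ R ∧ ∀ ρ ∈ R, ρ • μ = μ

/-- `k ∈ K_i`. -/
def KK (i : S.ι) (μ : S.Z i) (k : S.A) : Prop := ∃ r, S.Wit i μ k r

/-- Rule O applies to `i` (section 7): `u` is the only atom with label `i`, and for some `r` of
type (C) acting non-trivially on `u` the stabiliser of `μ` in `D^{(r)}` acts trivially on `u`. -/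
def RuleO (i : S.ι) (μ : S.Z i) : Prop :=
  ∃ u, S.lab u = some i ∧ (∀ v, S.lab v = some i → v = u) ∧
    ∃ r, S.TC r ∧ S.Act r u ∧ ∀ d ∈ S.D r, d • μ = μ → S.Tr d u

/-- `r` is missed by the configuration `(λ, μ)`. -/
def Missed (lam : AddChar S.W ℂ) (mu : ∀ i, S.Z i) (r : ℕ) : Prop :=
  (∃ R : Subgroup S.H, SylIn r ⊤ R ∧ ∀ ρ ∈ R, Fixes S.cmp S.B lam mu ρ) ∧
    (S.TC r → ∀ d ∈ S.D r, Fixes S.cmp S.B lam mu d → d = 1)

end Sys

/-- The facts (3f) for a prime `r` of type (C) acting non-trivially on the atom `u`, in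
coordinates `c` of `u`: `σ` generates the group of field automorphisms induced by the Sylow
`r`-subgroups, `N = {σ x / x}` is the norm-one group, `F^* = N × Fix(σ)^*`, `D^{(r)}` acts on `u`
as multiplication by the elements of `N`, a Sylow `r`-subgroup acts as `x σ^j x⁻¹`. -/
structure UnM (S : Sys) {u : S.A} {F : Type} [Field F] (c : Coord S.H S.at' u F) (r : ℕ)
    (σ : F ≃+* F) (k : ℕ) : Prop where
  kpos : 0 < k
  ord : orderOf σ = r ^ k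
  card : Nat.card F = Nat.card {y : F // σ y = y} ^ (r ^ k)
  sub : ∀ d ∈ S.D r, (∀ y, c.s d y = y) ∧ ∃ x, x ≠ 0 ∧ c.a d = σ x / x
  onto : ∀ x, x ≠ 0 → ∃ d ∈ S.D r, c.a d = σ x / x
  syl : ∀ R : Subgroup S.H, SylIn r ⊤ R → ∃ x, x ≠ 0 ∧
    (∀ ρ ∈ R, ∃ j : ℕ, (∀ y, c.s ρ y = (σ ^ j) y) ∧ c.a ρ = x / (σ ^ j) x) ∧
    ∃ ρ ∈ R, (∀ y, c.s ρ y = σ y) ∧ c.a ρ = x / σ x
  dec : ∀ y, y ≠ 0 → ∃ x z, x ≠ 0 ∧ z ≠ 0 ∧ σ z = z ∧ y = σ x / x * z
  inf : ∀ x, x ≠ 0 → σ (σ x / x) = σ x / x → σ x = x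
  mod : ∀ l, l.Prime → ∀ x, x ≠ 0 → σ x / x ≠ 1 → (σ x / x) ^ l = 1 → r ∣ l - 1

/-- **(3f)** Coordinates facts for type (C). -/
def SpecCFA : Prop :=
  ∀ (S : Sys) (r : ℕ) (u : S.A), S.TC r → S.Act r u →
    ∀ (F : Type) [Field F] [Finite F] (c : Coord S.H S.at' u F),
      ∃ (σ : F ≃+* F) (k : ℕ), UnM S c r σ k

/-- **STEP LEMMA** (section 6). -/
def SpecSTP : Prop :=
  ∀ (S : Sys) (T : Subgroup S.H) (u : S.A), ∃ w : AddChar S.W ℂ,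
    (∀ v, v ≠ u → ∀ x ∈ S.at' v, w x = 1) ∧ (∃ x ∈ S.at' u, w x ≠ 1) ∧
    (∀ r, Large r → S.Mv r u → ∀ R : Subgroup S.H, SylIn r (MulAction.stabilizer S.H u) R →
      ∃ ρ ∈ R, ∃ x ∈ S.at' u, w (ρ • x) ≠ w x) ∧
    ∀ r, S.TC r → S.Act r u →
      (∃ R : Subgroup S.H, SylIn r ⊤ R ∧ R ≤ T ∧ ∀ ρ ∈ R, ∀ x ∈ S.at' u, w (ρ • x) = w x) →
      ∀ d ∈ S.D r, ∃ d' ∈ S.D r, d' ∈ T ∧ S.Same d d' u

/-- **(8b)** The radical of `B i μ` for `k ∈ K_i` with witness `r`. -/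
def SpecKRF : Prop :=
  ∀ (S : Sys) (i : S.ι) (μ : S.Z i) (k : S.A) (r : ℕ), S.MinInv i μ → S.Wit i μ k r →
    (∀ h : S.H, h • k = k) ∧
    (∀ R : Subgroup S.H, SylIn r ⊤ R → (∀ ρ ∈ R, ρ • μ = μ) →
      ∀ ρ ∈ R, ∀ x ∈ S.at' k, S.Rad i μ (ρ • x - x)) ∧
    ∃ x ∈ S.at' k, ¬ S.Rad i μ x

/-- **K-STEP** (8c). -/
def SpecKST : Prop :=
  ∀ (S : Sys) (i : S.ι) (μ : S.Z i) (k : S.A), S.MinInv i μ → S.KK i μ k →
    ∀ T : Subgroup S.H, (∀ h ∈ T, h • μ = μ) →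
    ∃ w : AddChar S.W ℂ, (∀ v, v ≠ k → ∀ x ∈ S.at' v, w x = 1) ∧
      ∀ r, S.TC r → S.Act r k →
        ¬ ∃ R : Subgroup S.H, SylIn r ⊤ R ∧ R ≤ T ∧ ∀ ρ ∈ R, S.FixR i μ w k ρ

/-- **LEMMA 9** (section 10, the rule L flip at `i`). `Db` is the subgroup of `D^{(r)}` of the
elements which fix everything outside `i` in the two configurations. -/
def SpecLEM9 : Prop :=
  ∀ (S : Sys) (r : ℕ) (i : S.ι) (μ : S.Z i) (Δ : Set S.A) (Db : Subgroup S.H),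
    S.TC r → S.MinInv i μ → ¬ S.RuleO i μ → Db ≤ S.D r →
    -- properties of `Δ` (from SpecPER)
    (∀ u : S.A, (∀ q, Large q → ∀ R : Subgroup S.H, SylIn q ⊤ R → ∀ ρ ∈ R, ∀ h : S.H,
        ρ • h • u = h • u) → u ∈ Δ) →
    (∀ (u : S.A) (q : ℕ), Large q → ∀ R : Subgroup S.H, SylIn q ⊤ R →
        (∃ ρ ∈ R, ∃ h : S.H, ρ • h • u ≠ h • u) →
        ∃ h h' : S.H, h • u ∈ Δ ∧ h' • u ∈ Δ ∧ h • u ≠ h' • u) →
    -- (p1) `Db` is onto the product of the images of `D^{(r)}` on the atoms of `Δ` over `i`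
    (∀ f : S.A → S.H, (∀ u, f u ∈ S.D r) →
      ∃ d ∈ Db, ∀ u ∈ Δ, S.lab u = some i → S.Same d (f u) u) →
    -- (p2) and faithful on it
    (∀ d ∈ Db, (∀ u ∈ Δ, S.lab u = some i → S.Tr d u) → d = 1) →
    -- (p3)
    (∀ d ∈ Db, d • μ = μ → d = 1) →
    -- (p4)
    (∃ R : Subgroup S.H, SylIn r ⊤ R ∧ (∀ ρ ∈ R, ρ • μ = μ) ∧
      ∀ ρ ∈ R, ∀ d ∈ Db, ρ * d * ρ⁻¹ ∈ Db) →
    -- (p5)
    (∀ k, S.KK i μ k → ¬ S.Act r k) →
    -- (p6)
    (∃ u, S.lab u = some i ∧ S.Act r u) → False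

/-- **RULE O** (section 9). -/
def SpecOST : Prop :=
  ∀ (S : Sys) (i : S.ι) (μ : S.Z i), μ ≠ 0 → S.RuleO i μ → ∀ u, S.lab u = some i →
    ∀ T : Subgroup S.H, ∃ c : S.Z i, c ≠ 0 ∧ ∃ w : AddChar S.W ℂ,
      (∀ v, v ≠ u → ∀ x ∈ S.at' v, w x = 1) ∧
      (∀ r, S.TC r → ∀ d ∈ S.D r, S.FixR i c w u d → S.Tr d u) ∧
      (∀ r, Large r → S.Mv r u → ∀ R : Subgroup S.H, SylIn r ⊤ R →
        ¬ ∀ ρ ∈ R, S.FixR i c w u ρ) ∧
      ∀ r, S.TC r → S.Act r u →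
        (∃ R : Subgroup S.H, SylIn r ⊤ R ∧ R ≤ T ∧ ∀ ρ ∈ R, S.FixR i c w u ρ) →
        ∀ d ∈ S.D r, ∃ d' ∈ S.D r, d' ∈ T ∧ S.Same d d' u

end Pool.Agent.Lib.MPbe1941
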